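import Mathlib
import Pool.Agent.R463.EX13

set_option autoImplicit false

/-!
# The exact local structure of the almost prime pairs `n`, `2 n - 1` in arithmetic progressions
-/

namespace Pool.Agent.Results.MP_39a890_nt.ExactBlocks

open Finset Filter

/-- for `n = q m + c` neither `n` nor `2 * n - 1` has a prime factor `p ≤ X ^ (1 / r)` -/
def Good (q c X r m : ℕ) : Prop :=
  ∀ p : ℕ, p.Prime → (p : ℝ) ≤ (X : ℝ) ^ (1 / (r : ℝ)) →
    ¬ (p : ℤ) ∣ (q : ℤ) * m + c ∧ ¬ (p : ℤ) ∣ 2 * ((q : ℤ) * m + c) - 1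

/-- `0` for the prime factors of `q`, otherwise the number of the `n` modulo `p` for which `p` divides `n` or
`2 * n - 1` -/
def nu (q p : ℕ) : ℕ :=
  if p ∣ q then 0 else ((range p).filter (fun n : ℕ => (p : ℤ) ∣ (n : ℤ) ∨ (p : ℤ) ∣ 2 * (n : ℤ) - 1)).card

/-- the density of the good integers: the product of `1 - nu(p) / p` over the primes `p ≤ X ^ (1 / r)` -/
noncomputable def V (q X r : ℕ) : ℝ :=
  ∏ p ∈ (Icc 1 ⌊(X : ℝ) ^ (1 / (r : ℝ))⌋₊).filter Nat.Prime, (1 - (nu q p : ℝ) / p)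

open Classical in
/-- the number of the residues `m` modulo `p` for which `p` divides `n` or `2 n - 1` for an `n = q (m + h) + c`,
`h ∈ H` -/
noncomputable def nuH (q c : ℕ) (H : Finset ℕ) (p : ℕ) : ℕ :=
  ((range p).filter (fun m : ℕ => ∃ h ∈ H, (p : ℤ) ∣ (q : ℤ) * ((m + h : ℕ) : ℤ) + c ∨
    (p : ℤ) ∣ 2 * ((q : ℤ) * ((m + h : ℕ) : ℤ) + c) - 1)).card

/-- the density of the pattern: the product of `1 - nuH(p) / p` over the primes `p ≤ X ^ (1 / r)` -/
noncomputable def VH (q c : ℕ) (H : Finset ℕ) (X r : ℕ) : ℝ :=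
  ∏ p ∈ (Icc 1 ⌊(X : ℝ) ^ (1 / (r : ℝ))⌋₊).filter Nat.Prime, (1 - (nuH q c H p : ℝ) / p)

open Classical in
/-- the number of the `m` in `(Z, Z + Y]` for which the good integers in `[m, m + L]` are exactly the
integers `m + h` with `h ∈ H` -/
noncomputable def Blocks (q c : ℕ) (H : Finset ℕ) (L X r Z Y : ℕ) : ℕ :=
  ((Ioc Z (Z + Y)).filter (fun m => ∀ h ≤ L, Good q c X r (m + h) ↔ h ∈ H)).card

/-- the leading coefficients -/
def fa : Fin 2 → ℤ := ![1, 2]
/-- the constant coefficients -/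
def fb : Fin 2 → ℤ := ![0, -1]

lemma ev (x : ℤ) : fa 0 * x + fb 0 = x ∧ fa 1 * x + fb 1 = 2 * x - 1 := by
  constructor
  · show (1 : ℤ) * x + 0 = x
    ring
  · show (2 : ℤ) * x + (-1) = 2 * x - 1
    ring

lemma good_iff (q c X r m : ℕ) : Good q c X r m ↔ Pool.Agent.R463.LA.GoodL fa fb q c X r m := by
  unfold Good Pool.Agent.R463.LA.GoodL
  refine forall_congr' fun p => forall_congr' fun _ => forall_congr' fun _ => ?_
  rw [Fin.forall_fin_two, (ev _).1, (ev _).2]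

lemma nu_eq (q p : ℕ) : nu q p = Pool.Agent.R463.LA.nuL fa fb q p := by
  classical
  unfold nu Pool.Agent.R463.LA.nuL
  split_ifs
  · rfl
  · congr 1
    apply filter_congr
    intro n _
    rw [Fin.exists_fin_two, (ev _).1, (ev _).2]

lemma V_eq (q X r : ℕ) : V q X r = Pool.Agent.R463.LA.VL fa fb q X r := by
  unfold V Pool.Agent.R463.LA.VL
  simp only [nu_eq]

lemma VH_eq (q c : ℕ) (H : Finset ℕ) (X r : ℕ) : VH q c H X r = Pool.Agent.R463.LA.VLH fa fb q c H X r := by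
  classical
  unfold VH Pool.Agent.R463.LA.VLH
  apply prod_congr rfl
  intro p _
  have : nuH q c H p = Pool.Agent.R463.LA.nuLH fa fb q c H p := by
    unfold nuH Pool.Agent.R463.LA.nuLH
    congr 1
    ext m
    simp only [mem_filter]
    refine and_congr_right fun _ => exists_congr fun h => and_congr_right fun _ => ?_
    rw [Fin.exists_fin_two, (ev _).1, (ev _).2]
  rw [this]

lemma Blocks_eq (q c : ℕ) (H : Finset ℕ) (L X r Z Y : ℕ) :
    Blocks q c H L X r Z Y = Pool.Agent.R463.LA.BL fa fb q c H L X r Z Y := by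
  classical
  unfold Blocks Pool.Agent.R463.LA.BL
  simp only [good_iff]

lemma adm : Pool.Agent.R463.PS.AdmL fa fb := by
  refine ⟨fun i => ?_, fun p hp => ?_⟩
  · fin_cases i
    · show (0 : ℤ) < 1
      norm_num
    · show (0 : ℤ) < 2
      norm_num
  · by_cases h1 : p ∣ 15
    · refine ⟨7, fun i => ?_⟩
      have h2 : ¬ p ∣ 91 := by
        intro h2
        have h3 := Nat.dvd_gcd h1 h2
        have h4 : Nat.gcd 15 91 = 1 := by norm_num
        rw [h4] at h3
        exact hp.one_lt.ne' (Nat.dvd_one.1 h3)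
      have h5 : ∀ x : ℕ, x ∣ 91 → ¬ (p : ℤ) ∣ (x : ℤ) := fun x hx hd =>
        h2 ((Int.natCast_dvd_natCast.1 hd).trans hx)
      fin_cases i
      · have h6 := h5 7 (by norm_num)
        have h7 := (ev ((7 : ℕ) : ℤ)).1
        intro hd
        apply h6
        rw [← h7]
        exact hd
      · have h6 := h5 13 (by norm_num)
        have h7 := (ev ((7 : ℕ) : ℤ)).2
        intro hd
        apply h6
        have h8 : ((13 : ℕ) : ℤ) = 2 * (((7 : ℕ)) : ℤ) - 1 := by norm_num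
        rw [h8, ← h7]
        exact hd
    · refine ⟨3, fun i => ?_⟩
      have h5 : ∀ x : ℕ, x ∣ 15 → ¬ (p : ℤ) ∣ (x : ℤ) := fun x hx hd =>
        h1 ((Int.natCast_dvd_natCast.1 hd).trans hx)
      fin_cases i
      · have h6 := h5 3 (by norm_num)
        have h7 := (ev ((3 : ℕ) : ℤ)).1
        intro hd
        apply h6
        rw [← h7]
        exact hd
      · have h6 := h5 5 (by norm_num)
        have h7 := (ev ((3 : ℕ) : ℤ)).2
        intro hd
        apply h6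
        have h8 : ((5 : ℕ) : ℤ) = 2 * (((3 : ℕ)) : ℤ) - 1 := by norm_num
        rw [h8, ← h7]
        exact hd

lemma cop (q c : ℕ) (h1 : Nat.Coprime q c) (h2 : IsCoprime (q : ℤ) (2 * (c : ℤ) - 1)) :
    ∀ i, IsCoprime (q : ℤ) (fa i * c + fb i) := by
  rw [Fin.forall_fin_two, (ev _).1, (ev _).2]
  exact ⟨Nat.isCoprime_iff_coprime.2 h1, h2⟩

lemma det : fa 0 * fb 1 ≠ fa 1 * fb 0 := by
  show (1 : ℤ) * (-1) ≠ 2 * 0
  norm_num

lemma tr (q : ℕ) (hq : 1 ≤ q) : ∀ i j, fa i = fa j → fb i - fb j < q * fa j := by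
  have hq0 : (0 : ℤ) < q := by exact_mod_cast hq
  intro i j hij
  fin_cases i <;> fin_cases j
  · show (0 : ℤ) - 0 < q * 1
    linarith
  · exact absurd hij (by show ¬ ((1 : ℤ) = 2); norm_num)
  · exact absurd hij (by show ¬ ((2 : ℤ) = 1); norm_num)
  · show (-1 : ℤ) - (-1) < q * 2
    linarith

/-- **The exact local structure of the almost prime pairs `n`, `2 n - 1` in progressions.** For `A`, `K`,
`θ > 0`, `x₀` and `ε > 0` there is `r₀` such that for all `r ≥ r₀` and all large `X` the following holds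
uniformly for ALL moduli `1 ≤ q ≤ X ^ A` and residues `c ≤ X ^ A` with `c` and `2 * c - 1` prime to `q`, for
ALL intervals `(Z, Z + Y]` with `Y ≥ X ^ θ`, ALL sets `H` of at most `K` natural numbers with `0 ∈ H` and all
`L ≥ max H` with `L V ≤ x₀`: the number of the `m` in the interval for which the good integers in `[m, m + L]`
are exactly the `m + h`, `h ∈ H`, is `Y VH exp (- L V)`, up to the factor `1 ± ε`. -/
theorem result (A K : ℕ) (θ : ℝ) (hθ : 0 < θ) (x₀ ε : ℝ) (hε : 0 < ε) :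
    ∃ r₀ : ℕ, 2 ≤ r₀ ∧ ∀ r : ℕ, r₀ ≤ r → ∀ᶠ X : ℕ in atTop, ∀ q c : ℕ, 1 ≤ q → q ≤ X ^ A →
      c ≤ X ^ A → Nat.Coprime q c → IsCoprime (q : ℤ) (2 * (c : ℤ) - 1) →
      ∀ Z Y : ℕ, (X : ℝ) ^ θ ≤ Y → ∀ H : Finset ℕ, H.card ≤ K → 0 ∈ H → ∀ L : ℕ,
        (∀ h ∈ H, h ≤ L) → L * V q X r ≤ x₀ →
        |(Blocks q c H L X r Z Y : ℝ) - Y * VH q c H X r * Real.exp (-(L * V q X r))| ≤
          ε * (Y * VH q c H X r * Real.exp (-(L * V q X r))) := by
  obtain ⟨r₀, hr₀, h⟩ := Pool.Agent.R463.LA.blocksM adm 0 1 det A K θ hθ x₀ ε hε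
  refine ⟨r₀, hr₀, fun r hr => ?_⟩
  filter_upwards [h r hr] with X hX q c hq hqX hcX h1 h2 Z Y hY H hH h0 L hL hx
  rw [V_eq] at hx ⊢
  rw [Blocks_eq, VH_eq]
  exact hX q c hq hqX hcX (cop q c h1 h2) (tr q hq) Z Y hY H hH h0 L hL hx

end Pool.Agent.Results.MP_39a890_nt.ExactBlocks
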