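import Mathlib
import Pool.Agent.R463.LinAP2
import Pool.Agent.R463.NarLin

set_option autoImplicit false

/-!
# Narrow progressions in arbitrary sets of prime or almost prime pairs `n`, `2 n - 1`

In short intervals.
-/

namespace Pool.Agent.Results.MP_39a890_nt.NarrowProgressions

open Finset Filter

/-- the `n` such that all prime factors of `n` and of `2 * n - 1` are larger than `n ^ (1 / r)` -/
def RoughAt (r : ℕ) : Set ℕ :=
  {n | ∀ p : ℕ, p.Prime → ((p : ℤ) ∣ (n : ℤ) ∨ (p : ℤ) ∣ 2 * (n : ℤ) - 1) → (n : ℝ) ^ (1 / (r : ℝ)) < (p : ℝ)}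

/-- `n` is a term of an `l`-term arithmetic progression with difference at most `D`, all terms of which
are elements of `A` in the interval `(a, b]`. -/
def InProgression (A : Set ℕ) (l : ℕ) (D : ℝ) (a b n : ℕ) : Prop :=
  ∃ u d : ℕ, 1 ≤ d ∧ (d : ℝ) ≤ D ∧ (∀ i < l, u + i * d ∈ A ∧ a < u + i * d ∧ u + i * d ≤ b) ∧
    ∃ i < l, n = u + i * d

/-- the leading coefficients -/
def fa : Fin 2 → ℤ := ![1, 2]
/-- the constant coefficients -/
def fb : Fin 2 → ℤ := ![0, -1]

lemma ev (x : ℤ) : fa 0 * x + fb 0 = x ∧ fa 1 * x + fb 1 = 2 * x - 1 := by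
  constructor
  · show (1 : ℤ) * x + 0 = x
    ring
  · show (2 : ℤ) * x + (-1) = 2 * x - 1
    ring

lemma adm : Pool.Agent.R463.PS.AdmL fa fb := by
  refine ⟨fun i => ?_, fun p hp => ?_⟩
  · fin_cases i
    · show (0 : ℤ) < 1
      norm_num
    · show (0 : ℤ) < 2
      norm_num
  · by_cases h1 : p ∣ 15
    · refine ⟨7, fun i => ?_⟩
      have h2 : ¬ p ∣ 91 := by
        intro h2
        have h3 := Nat.dvd_gcd h1 h2
        have h4 : Nat.gcd 15 91 = 1 := by norm_num
        rw [h4] at h3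
        exact hp.one_lt.ne' (Nat.dvd_one.1 h3)
      have h5 : ∀ x : ℕ, x ∣ 91 → ¬ (p : ℤ) ∣ (x : ℤ) := fun x hx hd =>
        h2 ((Int.natCast_dvd_natCast.1 hd).trans hx)
      fin_cases i
      · have h6 := h5 7 (by norm_num)
        have h7 := (ev ((7 : ℕ) : ℤ)).1
        intro hd
        apply h6
        rw [← h7]
        exact hd
      · have h6 := h5 13 (by norm_num)
        have h7 := (ev ((7 : ℕ) : ℤ)).2
        intro hd
        apply h6
        have h8 : ((13 : ℕ) : ℤ) = 2 * (((7 : ℕ)) : ℤ) - 1 := by norm_num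
        rw [h8, ← h7]
        exact hd
    · refine ⟨3, fun i => ?_⟩
      have h5 : ∀ x : ℕ, x ∣ 15 → ¬ (p : ℤ) ∣ (x : ℤ) := fun x hx hd =>
        h1 ((Int.natCast_dvd_natCast.1 hd).trans hx)
      fin_cases i
      · have h6 := h5 3 (by norm_num)
        have h7 := (ev ((3 : ℕ) : ℤ)).1
        intro hd
        apply h6
        rw [← h7]
        exact hd
      · have h6 := h5 5 (by norm_num)
        have h7 := (ev ((3 : ℕ) : ℤ)).2
        intro hd
        apply h6
        have h8 : ((5 : ℕ) : ℤ) = 2 * (((3 : ℕ)) : ℤ) - 1 := by norm_num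
        rw [h8, ← h7]
        exact hd

/-- the leading coefficients as natural numbers -/
def ga : Fin 2 → ℕ := ![1, 2]

lemma ga_eq (i : Fin 2) : ((ga i : ℕ) : ℤ) = fa i := by
  fin_cases i <;> rfl

lemma rough_iff (r : ℕ) : RoughAt r = Pool.Agent.R463.NL.RoughAt ga fb r := by
  ext n
  unfold RoughAt Pool.Agent.R463.NL.RoughAt
  simp only [Set.mem_setOf_eq, ga_eq]
  rw [Fin.forall_fin_two, (ev _).1, (ev _).2]
  constructor
  · intro h
    exact ⟨fun p hp hd => h p hp (Or.inl hd), fun p hp hd => h p hp (Or.inr hd)⟩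
  · rintro ⟨h1, h2⟩ p hp (hd | hd)
    · exact h1 p hp hd
    · exact h2 p hp hd

open Classical in
/-- **Narrow progressions in arbitrary sets of pairs `n`, `2 n - 1`.** (1) For `r ≥ 2` all primes `n` with
`2 * n - 1` prime are in `RoughAt r`: neither `n` nor `2 * n - 1` has a prime factor `≤ n ^ (1 / r)`. (2) For `θ, ε > 0`
and `r, l ≥ 2` there is an exponent `B` such that for all large `X`, all `X ^ θ ≤ Y ≤ X` and EVERY set `A` of
`n` such that neither `n` nor `2 * n - 1` has a prime factor `≤ n ^ (1 / r)`, for instance every set of primes `n`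
with `2 * n - 1` prime: all but at most `ε Y / (log X) ^ 2` of the elements of `A` in `(X, X + Y]` are terms of
`l`-term arithmetic progressions, contained in the part of `A` in `(X, X + Y]`, with difference at most
`(log X) ^ B`. -/
theorem result :
    (∀ r : ℕ, 2 ≤ r → ∀ n : ℕ, n.Prime → (2 * n - 1).Prime → n ∈ RoughAt r) ∧
    ∀ θ : ℝ, 0 < θ → ∀ r : ℕ, 2 ≤ r → ∀ l : ℕ, 2 ≤ l → ∀ ε : ℝ, 0 < ε →
    ∃ B : ℕ, ∀ᶠ X : ℕ in atTop, ∀ Y : ℕ, (X : ℝ) ^ θ ≤ Y → Y ≤ X →
      ∀ A : Set ℕ, A ⊆ RoughAt r →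
        (((Ioc X (X + Y)).filter (fun n : ℕ =>
          n ∈ A ∧ ¬ InProgression A l (Real.log X ^ B) X (X + Y) n)).card : ℝ) ≤
        ε * (Y / Real.log X ^ 2) := by
  refine ⟨?_, ?_⟩
  · intro r hr n hn hn2 p hp hd
    have hn1 : (1 : ℝ) < n := by exact_mod_cast hn.one_lt
    have hr2 : (2 : ℝ) ≤ r := by exact_mod_cast hr
    have h4 : (n : ℝ) ^ (1 / (r : ℝ)) < n := by
      have h5 : (1 / (r : ℝ)) < 1 := by
        rw [div_lt_one (by linarith)]
        linarith
      have := Real.rpow_lt_rpow_of_exponent_lt hn1 h5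
      rwa [Real.rpow_one] at this
    refine h4.trans_le ?_
    have hpos := hn.one_lt
    rcases hd with hd | hd
    · have h1 : p ∣ n := Int.natCast_dvd_natCast.1 hd
      rw [(Nat.prime_dvd_prime_iff_eq hp hn).1 h1]
    · have e : (2 * (n : ℤ) - 1) = ((2 * n - 1 : ℕ) : ℤ) := by omega
      rw [e] at hd
      have h1 : p ∣ 2 * n - 1 := Int.natCast_dvd_natCast.1 hd
      rw [(Nat.prime_dvd_prime_iff_eq hp hn2).1 h1]
      exact_mod_cast (by omega : n ≤ 2 * n - 1)
  · intro θ hθ r hr l hl ε hε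
    obtain ⟨B, hB⟩ := Pool.Agent.R463.NL.narrow_lin (by norm_num : 0 < 2) ga fb
      (fun i => by fin_cases i <;> decide) (fun i => by
        rw [ga_eq]
        exact adm.cop i)
      (fun i j h1 _ => by
        fin_cases i <;> fin_cases j
        · rfl
        · exact absurd h1 (by decide)
        · exact absurd h1 (by decide)
        · rfl)
      (fun p hp => by
        obtain ⟨n, hn⟩ := adm.2 p hp
        exact ⟨n, fun i => by
          rw [ga_eq]
          exact hn i⟩) θ hθ r hr l hl ε hε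
    refine ⟨B, ?_⟩
    filter_upwards [hB] with X hX Y hXY hYX A hA
    rw [rough_iff] at hA
    exact hX Y hXY hYX A hA

end Pool.Agent.Results.MP_39a890_nt.NarrowProgressions
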