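import Mathlib
import Pool.Agent.R493.SC.Geo
/-!
# Common exponents `k` with `p = 2 ^ k (q - 1) + 1` at several scales

The question is whether for every large `N` there are primes `p ∈ [N, 2 N]` and `q` with
`p = 2 q - 1 = 2 ^ 1 (q - 1) + 1`. Let `K(N)` be the set of the exponents `k` such that `[N, C N]` contains
at least `N / (log N) ^ B` primes `p = 2 ^ k (q - 1) + 1` with `q` prime. The theorem implies that any `R` of
the sets `K(N) ∩ [1, k_0(R)]`, for large `N` (which may be of very different sizes), have a common element. In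
fact, for every large set `V` of exponents at least the proportion `1 / m R - ε` of the pairs `i < j` of
elements of `V` are such that `j - i` belongs to all the given `R` sets, where `m 1 = 3`, `m 2 = 10`,
`m 3 = 36`, ..., `m R ≤ (18 / 5) ^ R`.

The theorem on classes of linear forms with the constant `18 / 5`, uniform in constant terms as large as the
variable (`Pool.Agent.Y827.RO.lamRD`), is from the starting files.
-/

namespace Pool.Agent.Results.MP_39a890_nt.SimultaneousScales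

open Finset Filter

/-- the number of the primes `p ∈ [N, C N]` such that `p = 2 ^ k (q - 1) + 1` for a prime `q` -/
noncomputable def count (k C N : ℕ) : ℕ :=
  {p : ℕ | N ≤ p ∧ p ≤ C * N ∧ p.Prime ∧ ∃ q : ℕ, q.Prime ∧ p = 2 ^ k * (q - 1) + 1}.ncard

/-- `m 0 = 1` and `m (R + 1) = ⌊18 * m R / 5⌋`: the numbers `1, 3, 10, 36, 129, ...` -/
def m : ℕ → ℕ
  | 0 => 1
  | R + 1 => 18 * m R / 5

theorem m_eq (R : ℕ) : m R = Pool.Agent.R493.SI.mR R := by
  induction R with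
  | zero => rfl
  | succ R ih =>
    show 18 * m R / 5 = 18 * Pool.Agent.R493.SI.mR R / 5
    rw [ih]

theorem cnt_le {i j D W N : ℕ} (hij : i < j) (hj : j ≤ W) (hN : 1 ≤ N) :
    Pool.Agent.R493.SC.cntG 2 1 D {i, j} N ≤ count (j - i) (2 ^ W * D + 1) N := by
  unfold Pool.Agent.R493.SC.cntG count
  rw [← Set.ncard_coe_finset, ← Set.ncard_image_of_injective (f := fun n : ℕ => 2 ^ j * n + 1) _ (by
    intro x y hxy
    simp only [Nat.add_right_cancel_iff] at hxy
    exact Nat.eq_of_mul_eq_mul_left (by positivity) hxy)]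
  apply Set.ncard_le_ncard
  · rintro p ⟨n, hn, rfl⟩
    rw [mem_coe, mem_filter, mem_Icc] at hn
    obtain ⟨⟨h1, h2⟩, h3⟩ := hn
    have hi := h3 i (by simp)
    have hj' := h3 j (by simp)
    have e : ∀ v : ℕ, (((2 : ℕ) : ℤ) ^ v * (n : ℤ) + 1).toNat = 2 ^ v * n + 1 := by
      intro v
      have : ((2 : ℕ) : ℤ) ^ v * (n : ℤ) + 1 = ((2 ^ v * n + 1 : ℕ) : ℤ) := by push_cast; ring
      rw [this, Int.toNat_natCast]
    rw [e] at hi hj'
    have h2j : 1 ≤ 2 ^ j := Nat.one_le_two_pow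
    have h2W : 2 ^ j ≤ 2 ^ W := Nat.pow_le_pow_right (by norm_num) hj
    refine ⟨?_, ?_, hj', 2 ^ i * n + 1, hi, ?_⟩
    · show N ≤ 2 ^ j * n + 1
      nlinarith
    · show 2 ^ j * n + 1 ≤ (2 ^ W * D + 1) * N
      calc 2 ^ j * n + 1 ≤ 2 ^ W * (D * N) + N := Nat.add_le_add (Nat.mul_le_mul h2W h2) hN
        _ = (2 ^ W * D + 1) * N := by ring
    · show 2 ^ j * n + 1 = 2 ^ (j - i) * (2 ^ i * n + 1 - 1) + 1
      rw [Nat.add_sub_cancel, ← mul_assoc, ← pow_add, Nat.sub_add_cancel hij.le]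
  · exact (Set.finite_Iic ((2 ^ W * D + 1) * N)).subset (fun p hp => hp.2.1)

open Classical in
theorem result (R : ℕ) (ε : ℝ) (hε : 0 < ε) : ∃ n₀ B : ℕ, ∀ V : Finset ℕ, n₀ ≤ V.card →
    ∃ C N₀ : ℕ, ∀ N : Fin R → ℕ, (∀ ρ, N₀ ≤ N ρ) →
      (1 / (m R : ℝ) - ε) * (V.card : ℝ) ^ 2 / 2 ≤
        (((V ×ˢ V).filter (fun y => y.1 < y.2 ∧ ∀ ρ,
          (N ρ : ℝ) / (Real.log (N ρ)) ^ B ≤ (count (y.2 - y.1) C (N ρ) : ℝ))).card : ℝ) := by
  obtain ⟨n₀, B, h⟩ := Pool.Agent.R493.SC.geoPairs R ε hε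
  refine ⟨n₀, B, fun V hV => ?_⟩
  obtain ⟨D, N₀, h1⟩ := h V hV (fun _ => 2) (fun _ => 1) (fun ρ => ⟨le_rfl, isCoprime_one_right⟩)
  refine ⟨2 ^ (V.sup id) * D + 1, N₀ + 1, fun N hN => ?_⟩
  rw [m_eq]
  refine (h1 N (fun ρ => (Nat.le_succ _).trans (hN ρ))).trans ?_
  rw [Nat.cast_le]
  apply card_le_card
  intro y hy
  obtain ⟨h2, h3, h4⟩ := mem_filter.1 hy
  refine mem_filter.2 ⟨h2, h3, fun ρ => (h4 ρ).trans ?_⟩
  rw [Nat.cast_le]
  exact cnt_le h3 (Finset.le_sup (f := id) (mem_product.1 h2).2) ((Nat.le_add_left _ _).trans (hN ρ))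

end Pool.Agent.Results.MP_39a890_nt.SimultaneousScales
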